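import Pool.Agent.H29.SX.Targets

set_option autoImplicit false

/-!
# MP_c65535_nt, the sharp exponent: row ANB of the board `shx_modules`
-/

namespace Pool.Agent.H29.SX

open NumberField Height Finset Polynomial Pool.Agent.H24.RD Pool.Agent.H23.RDD Pool.Agent.H29.RQ

namespace ANB

theorem pt_pow {M : Type} [Field M] {r : ℕ} (γ : Fin r → M) (z : M) (q : ℕ)
    (n : Fin (r + 1) → ℤ) : pt (fun l => γ l ^ q) (z ^ q) n = (pt γ z n) ^ q := by
  unfold pt
  rw [mul_pow, ← Finset.prod_pow]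
  congr 1
  · rw [← zpow_natCast, ← zpow_natCast, ← zpow_mul, ← zpow_mul, mul_comm]
  · refine Finset.prod_congr rfl fun i _ => ?_
    change (γ i ^ q) ^ (n i.succ) = _
    rw [← zpow_natCast, ← zpow_natCast, ← zpow_mul, ← zpow_mul, mul_comm]

theorem map_pt {M M' : Type} [Field M] [Field M'] (σ : M →+* M') {r : ℕ} (γ : Fin r → M) (z : M)
    (n : Fin (r + 1) → ℤ) : σ (pt γ z n) = pt (fun l => σ (γ l)) (σ z) n := by
  unfold pt
  rw [map_mul, map_zpow₀, map_prod]
  congr 1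
  refine Finset.prod_congr rfl fun i _ => ?_
  rw [map_zpow₀]

theorem map_jc {M M' : Type} [Field M] [Field M'] (σ : M →+* M') {m : ℕ} (κ : Fin m → ℕ)
    (n : Fin m → ℤ) : σ (jc M κ n) = jc M' κ n := by
  unfold jc
  rw [map_prod]
  refine Finset.prod_congr rfl fun i _ => ?_
  rw [map_pow, map_intCast]

theorem yy_eq (F Ω : Type) [Field F] [Field Ω] [Algebra F Ω] (Φ : Ω ≃ₐ[F] Ω) (Q e0 : ℕ)
    {r : ℕ} (γ : Fin r → F) (β : Ω) (c : ℕ) (a : Fin (r + 1) → ℤ) :
    yy F Ω Φ Q e0 γ β c a =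
      (pt (fun i => algebraMap F Ω (γ i)) ((Φ ^ (e0 + c)).symm β) a) ^ (Q ^ (e0 + c)) := by
  unfold yy
  congr 1
  have h := map_pt ((Φ ^ (e0 + c)).symm : Ω →+* Ω) (fun i => algebraMap F Ω (γ i)) β a
  have h2 : (fun l => ((Φ ^ (e0 + c)).symm : Ω →+* Ω) (algebraMap F Ω (γ l))) =
      fun l => algebraMap F Ω (γ l) := by
    funext l
    exact (Φ ^ (e0 + c)).symm.commutes (γ l)
  rw [h2] at h
  exact h

end ANB

open ANB

theorem pf_ANB (h1 : T_FT) (h2 : T_DPA) (h3 : T_CLO) (h4 : T_RWS) (h5 : T_FLD) (h6 : T_RS) :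
    T_ANB := by
  classical
  intro F Ω _ _ _ _ _ _ _ p hp r γ hγ hunit E hEfd hEst hEK f δ hδ0 hδ1 Φ hΦ β g hβ X hX1 hX2
    hRed s t e0 k e' hfe hkδ R d0 nn hCols
  obtain ⟨a, ν, uA, κA, uB, cB, haν, had, hA, hB, hlin, hspan⟩ :=
    h4 F Ω r γ E hEK Φ (p ^ f) e0 s t R d0 nn β X hX1 hX2 hCols
  obtain ⟨M0, h, s0, -, -, -, hβs, hs0, -, hmap, -⟩ := h1 F Ω E hEfd X.card β hβ ⟨X, le_rfl, hX1⟩
  -- the roots are the elements of `X`
  have hs0X : s0 = X := by
    ext x
    constructor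
    · intro hx
      obtain ⟨-, -, σ, hσ, hσx⟩ := hs0 x hx
      rw [← hσx]
      exact hX1 σ hσ
    · intro hx
      obtain ⟨σ, hσ, hσx⟩ := hX2 x hx
      have hσE : ∀ z ∈ E, σ z = z := fun z hz => hσ z (hEK hz)
      have e1 : (h.map (algebraMap E Ω)).eval β = 0 := by
        rw [hmap, Polynomial.eval_prod]
        apply Finset.prod_eq_zero hβs
        simp
      have e2 : (h.map (algebraMap E Ω)).eval x = 0 := by
        rw [Polynomial.eval_map] at e1 ⊢
        have e3 := Polynomial.hom_eval₂ h (algebraMap E Ω) ((σ : Ω ≃+* Ω) : Ω →+* Ω) β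
        rw [e1, map_zero] at e3
        have e4 : ((σ : Ω ≃+* Ω) : Ω →+* Ω).comp (algebraMap E Ω) = algebraMap E Ω := by
          ext z
          exact hσE _ z.2
        rw [e4] at e3
        have e5 : ((σ : Ω ≃+* Ω) : Ω →+* Ω) β = x := hσx
        rw [e5] at e3
        exact e3.symm
      rw [hmap, Polynomial.eval_prod] at e2
      obtain ⟨y, hy, hy2⟩ := Finset.prod_eq_zero_iff.1 e2
      simp only [Polynomial.eval_sub, Polynomial.eval_X, Polynomial.eval_C] at hy2
      rw [sub_eq_zero] at hy2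
      rw [hy2]
      exact hy
  rw [hs0X] at hmap
  obtain ⟨M, hMfd, hEM, hXM, hMst⟩ := h5 F Ω E hEfd (insert g X)
  have hNF : NumberField M := NumberField.of_module_finite F M
  have hXM' : ∀ y ∈ X, y ∈ M := fun y hy => hXM y (Finset.mem_insert_of_mem hy)
  have hgM : g ∈ M := hXM g (Finset.mem_insert_self g X)
  set Q : ℕ := p ^ f with hQ
  have hQ0 : 0 < Q := pow_pos hp.pos f
  -- the automorphisms
  choose! σ hσK hσβ using hX2
  let zA : Fin a → M := fun i => ⟨(Φ ^ e0).symm (uA i), hMst _ _ (hXM' _ (hA i).1)⟩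
  let zB : Fin ν → M := fun i => ⟨(Φ ^ (e0 + cB i)).symm (uB i), hMst _ _ (hXM' _ (hB i).1)⟩
  let U0 : Finset M := X.attach.image (fun y => ⟨(Φ ^ e0).symm y.1, hMst _ _ (hXM' _ y.2)⟩)
  have hU0 : ∀ u : M, u ∈ U0 ↔ ∃ y ∈ X, (u : Ω) = (Φ ^ e0).symm y := by
    intro u
    simp only [U0, Finset.mem_image, Finset.mem_attach, true_and, Subtype.exists]
    constructor
    · rintro ⟨y, hy, rfl⟩
      exact ⟨y, hy, rfl⟩
    · rintro ⟨y, hy, h⟩
      exact ⟨y, hy, Subtype.ext h.symm⟩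
  let U : Finset M := U0.image (fun u => u ^ (Q ^ e0))
  have hq0 : 0 < Q ^ e0 := pow_pos hQ0 _
  have hinj : Set.InjOn (fun u : M => u ^ (Q ^ e0)) U0 := by
    intro u hu u' hu' huu
    obtain ⟨y, hy, hy2⟩ := (hU0 u).1 hu
    obtain ⟨y', hy', hy2'⟩ := (hU0 u').1 hu'
    have e1 : (u : Ω) ^ (Q ^ e0) = (u' : Ω) ^ (Q ^ e0) := by
      have := congrArg (fun z : M => (z : Ω)) huu
      simpa using this
    rw [hy2, hy2', ← map_pow, ← map_pow] at e1
    have e2 : y ^ (Q ^ e0) = y' ^ (Q ^ e0) := (Φ ^ e0).symm.injective e1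
    have e3 : σ y β = y := hσβ y hy
    have e4 : σ y' β = y' := hσβ y' hy'
    have a1 : (σ y').symm (y' ^ (Q ^ e0)) = β ^ (Q ^ e0) := by
      have a2 : y' ^ (Q ^ e0) = σ y' (β ^ (Q ^ e0)) := by rw [map_pow, e4]
      rw [a2, AlgEquiv.symm_apply_apply]
    have e5 : ((σ y').symm (σ y β)) ^ (Q ^ e0) = β ^ (Q ^ e0) := by
      rw [← map_pow, e3, e2, a1]
    have e6 : ((σ y).trans (σ y').symm) β = β := by
      apply hRed ((σ y).trans (σ y').symm) _ (Q ^ e0) hq0
      · exact e5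
      · intro z hz
        have f1 : σ y z = z := hσK y hy z (hEK hz)
        have f2 : σ y' z = z := hσK y' hy' z (hEK hz)
        have f3 : ((σ y).trans (σ y').symm) z = (σ y').symm (σ y z) := rfl
        rw [f3, f1]
        conv_lhs => rw [← f2]
        rw [AlgEquiv.symm_apply_apply]
    have e7 : y = y' := by
      have f3 : ((σ y).trans (σ y').symm) β = (σ y').symm (σ y β) := rfl
      rw [f3, e3] at e6
      have f4 := congrArg (σ y') e6
      rw [AlgEquiv.apply_symm_apply, e4] at f4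
      exact f4
    apply Subtype.ext
    rw [hy2, hy2', e7]
  let γM : Fin r → M := fun l => algebraMap F M (γ l)
  -- rows
  have hrowA : ∀ (x : Ω) (z : M), (z : Ω) = (Φ ^ e0).symm x → ∀ (κ : Fin (r + 1) → ℕ) (j : Fin R),
      algebraMap M Ω (jc M κ (nn j) * pt (fun l => γM l ^ (Q ^ e0)) (z ^ (Q ^ e0)) (nn j)) =
        jc Ω κ (nn j) * yy F Ω Φ Q e0 γ x 0 (nn j) := by
    intro x z hz κ j
    rw [pt_pow, yy_eq, add_zero, ← hz]
    have e1 := map_jc (algebraMap M Ω) κ (nn j)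
    have e2 := map_pt (algebraMap M Ω) γM z (nn j)
    have e3 : (fun l => algebraMap M Ω (γM l)) = fun l => algebraMap F Ω (γ l) := by
      funext l
      exact (IsScalarTower.algebraMap_apply F M Ω (γ l)).symm
    rw [e3] at e2
    rw [← e1, map_mul, map_pow, e2]
    rfl
  have hrowB : ∀ (x : Ω) (c : ℕ) (z : M), (z : Ω) = (Φ ^ (e0 + c)).symm x → ∀ (j : Fin R),
      algebraMap M Ω (pt (fun l => γM l ^ (Q ^ (e0 + c))) (z ^ (Q ^ (e0 + c))) (nn j)) =
        yy F Ω Φ Q e0 γ x c (nn j) := by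
    intro x c z hz j
    rw [pt_pow, yy_eq, ← hz]
    have e2 := map_pt (algebraMap M Ω) γM z (nn j)
    have e3 : (fun l => algebraMap M Ω (γM l)) = fun l => algebraMap F Ω (γ l) := by
      funext l
      exact (IsScalarTower.algebraMap_apply F M Ω (γ l)).symm
    rw [e3] at e2
    rw [map_pow, e2]
    rfl
  have hγM0 : ∀ l, γM l ≠ 0 := fun l h => hγ l ((map_eq_zero (algebraMap F M)).1 h)
  have hX0 : ∀ y ∈ X, y ≠ 0 := by
    intro y hy h
    rw [← hσβ y hy] at h
    exact hβ ((map_eq_zero (σ y)).1 h)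
  have hU00 : ∀ u ∈ U0, u ≠ 0 := by
    intro u hu h
    obtain ⟨y, hy, hy2⟩ := (hU0 u).1 hu
    rw [h] at hy2
    have : (Φ ^ e0).symm y = 0 := by
      rw [← hy2]
      rfl
    exact hX0 y hy ((map_eq_zero ((Φ ^ e0).symm)).1 this)
  have hzB0 : ∀ i, zB i ≠ 0 := by
    intro i h
    have e1 : (Φ ^ (e0 + cB i)).symm (uB i) = 0 := congrArg (fun z : M => (z : Ω)) h
    exact hX0 _ (hB i).1 ((map_eq_zero ((Φ ^ (e0 + cB i)).symm)).1 e1)
  have hres := h2 M p hp r t R a ν ((e' : ℝ) + 1) haν (by positivity) nn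
    (fun l => γM l ^ (Q ^ e0)) U (fun i => zA i ^ (Q ^ e0)) κA
    (fun i => zB i ^ (Q ^ (e0 + cB i))) (fun i l => γM l ^ (Q ^ (e0 + cB i))) ?_ ?_ ?_ ?_ ?_
  · refine ⟨M, hNF, a, ν, fun i => (σ (uA i)).trans (Φ ^ e0).symm, κA,
      fun i => (σ (uB i)).trans (Φ ^ (e0 + cB i)).symm, cB, zA, zB, hgM, hMst, haν, had, ?_, ?_, ?_⟩
    · intro i
      refine ⟨?_, (hA i).2⟩
      change (Φ ^ e0).symm (uA i) = (Φ ^ e0).symm (σ (uA i) β)
      rw [hσβ _ (hA i).1]
    · intro i
      refine ⟨?_, (hB i).2.2⟩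
      change (Φ ^ (e0 + cB i)).symm (uB i) = (Φ ^ (e0 + cB i)).symm (σ (uB i) β)
      rw [hσβ _ (hB i).1]
    · simp only [pt_pow] at hres
      exact hres
  · -- elements of `U` are nonzero
    intro u hu
    obtain ⟨u0, hu0, rfl⟩ := Finset.mem_image.1 hu
    exact pow_ne_zero _ (hU00 u0 hu0)
  · intro i
    exact pow_ne_zero _ (hzB0 i)
  · -- linear independence
    rw [Fintype.linearIndependent_iff]
    intro c hc
    have hlin' := (Fintype.linearIndependent_iff.1 hlin) (fun i => ((c i : M) : Ω)) ?_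
    · intro i
      exact Subtype.ext (hlin' i)
    · funext j
      have hcj := congrFun hc j
      have e1 := congrArg (algebraMap M Ω) hcj
      rw [Finset.sum_apply, map_sum] at e1
      rw [Finset.sum_apply]
      rw [Pi.zero_apply, map_zero] at e1
      rw [Pi.zero_apply, ← e1]
      refine Finset.sum_congr rfl fun i _ => ?_
      rcases i with i | i
      · simp only [Pi.smul_apply, Sum.elim_inl, smul_eq_mul, map_mul]
        have e2 := hrowA (uA i) (zA i) rfl (κA i) j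
        rw [← e2]
        change _ = _ * _
        congr 1
      · simp only [Pi.smul_apply, Sum.elim_inr, smul_eq_mul, map_mul]
        have e2 := hrowB (uB i) (cB i) (zB i) rfl j
        rw [← e2]
        change _ = _ * _
        congr 1
  · -- jets
    intro x hx u hu κ hκ
    obtain ⟨u0, hu0, rfl⟩ := Finset.mem_image.1 hu
    obtain ⟨y, hy, hy2⟩ := (hU0 u0).1 hu0
    have hsp := hspan y hy κ hκ
    let ℓ : (Fin R → Ω) →ₗ[Ω] Ω :=
      { toFun := fun v => ∑ j, ((x j : M) : Ω) * v j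
        map_add' := by
          intro v v'
          simp only [Pi.add_apply, mul_add, Finset.sum_add_distrib]
        map_smul' := by
          intro c v
          simp only [Pi.smul_apply, smul_eq_mul, RingHom.id_apply, Finset.mul_sum]
          refine Finset.sum_congr rfl fun j _ => ?_
          ring }
    have hle : Submodule.span Ω (Set.range
        fun (i : Fin a) (j : Fin R) => jc Ω (κA i) (nn j) * yy F Ω Φ Q e0 γ (uA i) 0 (nn j)) ≤
        LinearMap.ker ℓ := by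
      rw [Submodule.span_le]
      rintro _ ⟨i, rfl⟩
      change ∑ j, ((x j : M) : Ω) * (jc Ω (κA i) (nn j) * yy F Ω Φ Q e0 γ (uA i) 0 (nn j)) = 0
      have e1 := congrArg (algebraMap M Ω) (hx i)
      rw [map_sum, map_zero] at e1
      rw [← e1]
      refine Finset.sum_congr rfl fun j _ => ?_
      rw [← hrowA (uA i) (zA i) rfl (κA i) j, map_mul]
      rfl
    have hker := hle hsp
    have hker' : ∑ j, ((x j : M) : Ω) * (jc Ω κ (nn j) * yy F Ω Φ Q e0 γ y 0 (nn j)) = 0 := hker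
    apply (algebraMap M Ω).injective
    rw [map_sum, map_zero, ← hker']
    refine Finset.sum_congr rfl fun j _ => ?_
    rw [← hrowA y u0 hy2 κ j, map_mul]
    rfl
  · -- places
    intro v hv
    obtain ⟨v', kk, hkk, hv'⟩ := h6 F M v
    have hv'p : v'.1 (p : F) < 1 := by
      by_contra hcon
      push Not at hcon
      have e1 := hv' (p : F)
      rw [map_natCast] at e1
      rw [e1] at hv
      have e2 : (1 : ℝ) ≤ (v'.1 (p : F)) ^ kk := Real.one_le_rpow hcon hkk.le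
      linarith
    have hvγ : ∀ l, v.1 (γM l) = 1 := by
      intro l
      rw [hv', hunit v' hv'p l, Real.one_rpow]
    have hG : ∀ x : ℝ, x ≤ v.1 (p : M) ^ (e' + 1) → x ≤ v.1 (p : M) ^ ((e' : ℝ) + 1) := by
      intro x hx
      have e1 : v.1 (p : M) ^ ((e' : ℝ) + 1) = v.1 (p : M) ^ (e' + 1) := by
        rw [← Real.rpow_natCast]
        push_cast
        rfl
      rw [e1]
      exact hx
    refine ⟨?_, ?_, ?_⟩
    · intro l
      rw [map_pow, hvγ, one_pow]
    · intro i l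
      refine ⟨?_, ?_⟩
      · rw [map_pow, hvγ, one_pow]
      · apply hG
        exact (h3 F Ω E hEst p f δ hp hδ0 hδ1 Φ hΦ M hEM hMst e0 (cB i) k e' hfe hkδ v hv).2 (γ l)
          (hvγ l)
    · intro i
      apply hG
      rw [Finset.prod_image hinj]
      exact (h3 F Ω E hEst p f δ hp hδ0 hδ1 Φ hΦ M hEM hMst e0 (cB i) k e' hfe hkδ v hv).1 h X
        hXM' hmap U0 hU0 (zB i) ⟨uB i, (hB i).1, rfl⟩

end Pool.Agent.H29.SX
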