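import Pool.Agent.H29.SX.Targets

set_option autoImplicit false

/-!
# MP_c65535_nt, the sharp exponent: row JHT of the board `shx_modules`
-/

namespace Pool.Agent.H29.SX

open NumberField Height Finset Polynomial Pool.Agent.H24.RD Pool.Agent.H23.RDD Pool.Agent.H29.RQ

namespace JHT

theorem int_ht (M : Type) [Field M] [NumberField M] (R : ℕ) (z : Fin R → ℤ) (B : ℝ) (hB : 1 ≤ B)
    (hz : ∀ j, |(z j : ℝ)| ≤ B) :
    logHeight (fun j => (z j : M)) ≤ Module.finrank ℚ M * Real.log B := by
  have hB0 : 0 ≤ Real.log B := Real.log_nonneg hB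
  by_cases h0 : (fun j => (z j : M)) = 0
  · rw [h0, logHeight_zero]
    positivity
  have hne : Nonempty (Fin R) := by
    by_contra hcon
    rw [not_nonempty_iff] at hcon
    exact h0 (Subsingleton.elim _ _)
  rw [logHeight_eq_log_mulHeight, NumberField.mulHeight_eq h0, ← Real.log_pow]
  have hA : (∏ v : InfinitePlace M, (⨆ i, v ((z i : M))) ^ v.mult) ≤ B ^ Module.finrank ℚ M := by
    have e1 : (B ^ Module.finrank ℚ M) = ∏ v : InfinitePlace M, B ^ v.mult := by
      rw [Finset.prod_pow_eq_pow_sum, InfinitePlace.sum_mult_eq]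
    rw [e1]
    apply Finset.prod_le_prod
    · intro v _
      apply pow_nonneg
      exact Real.iSup_nonneg fun i => apply_nonneg _ _
    · intro v _
      apply pow_le_pow_left₀
      · exact Real.iSup_nonneg fun i => apply_nonneg _ _
      · apply ciSup_le
        intro i
        have e2 : v ((z i : M)) = |(z i : ℝ)| := by
          rw [← InfinitePlace.norm_embedding_eq, map_intCast]
          simp
        rw [e2]
        exact hz i
  have hF : (∏ᶠ v : FinitePlace M, ⨆ i, v ((z i : M))) ≤ 1 ∧
      0 ≤ (∏ᶠ v : FinitePlace M, ⨆ i, v ((z i : M))) := by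
    apply finprod_induction (p := fun x : ℝ => x ≤ 1 ∧ 0 ≤ x)
    · exact ⟨le_rfl, zero_le_one⟩
    · rintro a b ⟨ha, ha'⟩ ⟨hb, hb'⟩
      exact ⟨mul_le_one₀ ha hb' hb, mul_nonneg ha' hb'⟩
    · intro v
      refine ⟨?_, Real.iSup_nonneg fun i => apply_nonneg _ _⟩
      apply ciSup_le
      intro i
      have hv : IsNonarchimedean (v ·) := FinitePlace.add_le v
      exact IsNonarchimedean.apply_intCast_le_one hv
  have hpos : 0 < (∏ v : InfinitePlace M, (⨆ i, v ((z i : M))) ^ v.mult) *
      ∏ᶠ v : FinitePlace M, ⨆ i, v ((z i : M)) := by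
    rw [← NumberField.mulHeight_eq h0]
    exact mulHeight_pos _
  apply Real.log_le_log hpos
  calc (∏ v : InfinitePlace M, (⨆ i, v ((z i : M))) ^ v.mult) *
        ∏ᶠ v : FinitePlace M, ⨆ i, v ((z i : M))
      ≤ B ^ Module.finrank ℚ M * 1 := by
        apply mul_le_mul hA hF.1 hF.2
        positivity
    _ = B ^ Module.finrank ℚ M := mul_one _

end JHT

theorem pf_JHT : T_JHT := by
  intro M _ _ R z y B hB hz
  have h1 := logHeight_mul_le (fun j => (z j : M)) y
  have h2 := JHT.int_ht M R z B hB hz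
  have h3 : (fun j => (z j : M)) * y = fun j => (z j : M) * y j := rfl
  rw [h3] at h1
  linarith

end Pool.Agent.H29.SX
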