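import Pool.Agent.H29.SX.Defs

set_option autoImplicit false

/-!
# MP_c65535_nt, the sharp exponent: targets
-/

namespace Pool.Agent.H29.SX

open NumberField Height Finset Polynomial Pool.Agent.H24.RD Pool.Agent.H23.RDD Pool.Agent.H29.RQ

/-! ## A. Soft algebra -/

/-- MUJ: products of Laurent polynomials and their jets. -/
def T_MUJ : Prop := ∀ (K Ω : Type) [Field K] [Field Ω] [Algebra K Ω] (m' m : ℕ)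
  (L : (Fin m' → ℤ) →+ (Fin m → ℤ)) (N : (Fin m' → ℤ) → ℝ), IsNm N →
  ∀ (y : (Fin m' → ℤ) → Ω), IsPt y → ∀ (t : ℕ) (f h : (Fin m' → ℤ) →₀ K) (ρ₁ ρ₂ : ℝ),
  Spt N ρ₁ f → Spt N ρ₂ h → ∃ k : (Fin m' → ℤ) →₀ K, Spt N (t * ρ₁ + ρ₂) k ∧
    (∀ z : (Fin m' → ℤ) → Ω, IsPt z → ev K z k = (ev K z f) ^ t * ev K z h) ∧
    (ev K y f = 0 → ∀ κ : Fin m → ℕ, ∑ l, κ l < t → ev K (fun a => jc Ω κ (L a) * y a) k = 0)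

/-- CHO: choice of a sublattice. -/
def T_CHO : Prop := ∀ (K Ω : Type) [Field K] [Field Ω] [Algebra K Ω] (p : ℕ), p.Prime →
  ∀ (m : ℕ) (y : (Fin m → ℤ) → Ω) (N : (Fin m → ℤ) → ℝ) (σ : ℝ), IsPt y → IsNm N →
  ∀ f : (Fin m → ℤ) →₀ K, f ≠ 0 → Spt N σ f → ev K y f = 0 →
  ∃ (m' : ℕ) (L : (Fin m' → ℤ) →+ (Fin m → ℤ)), m' ≤ m ∧ Function.Injective L ∧
    StabT K p (fun a => y (L a)) (fun a => N (L a)) (2 * σ) ∧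
    ∃ a : Fin m' → ℤ, a ≠ 0 ∧ N (L a) ≤ 2 * σ

/-- GR1: the rank of the values at the twists by the characters of order `q`, upper bound. -/
def T_GR1 : Prop := ∀ (K Ω : Type) [Field K] [Field Ω] [Algebra K Ω] (q : ℕ), 0 < q → ∀ ζ : K,
  IsPrimitiveRoot ζ q → ∀ (m : ℕ) (y : (Fin m → ℤ) → Ω) (N : (Fin m → ℤ) → ℝ), IsPt y → IsNm N →
  ∀ ρ : ℝ, Module.finrank K (Submodule.span K
      ((fun (a : Fin m → ℤ) (e : Fin m → Fin q) =>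
        algebraMap K Ω (ζ ^ (∑ l, ((e l : ℕ) : ℤ) * a l)) * y a) '' {a | N a ≤ q * ρ})) ≤
    q ^ m * Module.finrank K (WW K (fun a => y a ^ q) N (2 * ρ))

/-- GR2: the rank of the values at the twists by the characters of order `q`, lower bound. -/
def T_GR2 : Prop := ∀ (K Ω : Type) [Field K] [Field Ω] [Algebra K Ω] (p : ℕ), p.Prime →
  ∀ (i : ℕ) (ζ : K), IsPrimitiveRoot ζ (p ^ i) → ∀ (m : ℕ) (y : (Fin m → ℤ) → Ω)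
  (N : (Fin m → ℤ) → ℝ) (σ : ℝ), IsPt y → IsNm N → 0 ≤ σ → StabT K p y N σ → ∀ ρ : ℝ,
  (p ^ i) ^ m * Module.finrank K (WW K y N (ρ - ((p : ℝ) ^ i) ^ m * σ)) ≤
    Module.finrank K (Submodule.span K
      ((fun (a : Fin m → ℤ) (e : Fin m → Fin (p ^ i)) =>
        algebraMap K Ω (ζ ^ (∑ l, ((e l : ℕ) : ℤ) * a l)) * y a) '' {a | N a ≤ ρ}))

/-- GRO: growth under `q`-th powers. -/
def T_GRO : Prop := ∀ (K Ω : Type) [Field K] [CharZero K] [Field Ω] [Algebra K Ω] (p : ℕ),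
  p.Prime → MuP K p → ∀ (m : ℕ) (y : (Fin m → ℤ) → Ω) (N : (Fin m → ℤ) → ℝ) (σ : ℝ), IsPt y →
  IsNm N → 0 ≤ σ → StabT K p y N σ → ∀ (i : ℕ) (ρ : ℝ),
  Module.finrank K (WW K y N ((p : ℝ) ^ i * ρ - ((p : ℝ) ^ i) ^ m * σ)) ≤
    Module.finrank K (WW K (fun a => y a ^ (p ^ i)) N (2 * ρ))

/-- LIF: stability under `q`-th powers. -/
def T_LIF : Prop := ∀ (K Ω : Type) [Field K] [CharZero K] [Field Ω] [Algebra K Ω] (p : ℕ),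
  p.Prime → MuP K p → ∀ (m : ℕ) (y : (Fin m → ℤ) → Ω) (N : (Fin m → ℤ) → ℝ) (σ : ℝ), IsPt y →
  IsNm N → 0 ≤ σ → StabT K p y N σ → ∀ i : ℕ,
  StabT K p (fun a => y a ^ (p ^ i)) N (((p : ℝ) ^ i) ^ m * σ)

/-- TWI: twists by automorphisms. -/
def T_TWI : Prop := ∀ (K Ω : Type) [Field K] [Field Ω] [Algebra K Ω] (θ : Ω ≃+* Ω) (κ : K ≃+* K),
  (∀ x, θ (algebraMap K Ω x) = algebraMap K Ω (κ x)) → ∀ (p m : ℕ) (y : (Fin m → ℤ) → Ω)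
  (N : (Fin m → ℤ) → ℝ), (∀ σ, StabT K p y N σ → StabT K p (fun a => θ (y a)) N σ) ∧
  ∀ ρ, Module.finrank K (WW K (fun a => θ (y a)) N ρ) = Module.finrank K (WW K y N ρ)

/-- NIN: if all the relations of `y` are relations of `z`, then `z` is conjugate to `y`. -/
def T_NIN : Prop := ∀ (K Ω : Type) [Field K] [CharZero K] [Field Ω] [Algebra K Ω]
  (p : ℕ), p.Prime → MuP K p → ∀ (θ : Ω ≃+* Ω) (κ : K ≃+* K),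
  (∀ x, θ (algebraMap K Ω x) = algebraMap K Ω (κ x)) → ∀ (m : ℕ) (y : (Fin m → ℤ) → Ω)
  (N : (Fin m → ℤ) → ℝ) (σ ρ : ℝ) (i : ℕ), IsPt y → IsNm N → 0 ≤ σ → StabT K p y N σ →
  8 ≤ p ^ i → 4 * (((p : ℝ) ^ i) ^ m * σ) ≤ ρ →
  (∀ f : (Fin m → ℤ) →₀ K, Spt N ρ f → ev K y f = 0 →
    ev K (fun a => θ (y a ^ (p ^ i))) f = 0) →
  ∀ a, N a ≤ ρ → aeval (θ (y a ^ (p ^ i))) (minpoly K (y a)) = 0

/-- FIL: columns adapted to a filtration. -/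
def T_FIL : Prop := ∀ (K V P Ω ι : Type) [Field K] [AddCommGroup V] [Module K V]
  [FiniteDimensional K V] [AddCommGroup P] [Module K P] [AddCommGroup Ω] [Module K Ω]
  (J : V →ₗ[K] P) (E : ℕ → V →ₗ[K] Ω) (s r0 : ℕ) (e : ι → V),
  Submodule.span K (Set.range e) = ⊤ →
  (∀ c : ℕ, 1 ≤ c → c ≤ s → ∃ Y : Submodule K V, Y ≤ LinearMap.ker J ∧
    (∀ c' : ℕ, 1 ≤ c' → c' < c → Y ≤ LinearMap.ker (E c')) ∧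
    r0 ≤ Module.finrank K (Y.map (E c))) →
  ∃ (R : ℕ) (j : Fin R → ι), Function.Injective j ∧
    Module.finrank K (LinearMap.range J) + s * r0 ≤ R ∧
    (∀ x : Fin R → K, J (∑ i, x i • e (j i)) = 0 →
      (∀ c : ℕ, 1 ≤ c → c ≤ s → E c (∑ i, x i • e (j i)) = 0) → x = 0) ∧
    R ≤ Module.finrank K (LinearMap.range J) +
      Module.finrank K (LinearMap.ker (J ∘ₗ Fintype.linearCombination K fun i => e (j i)))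

/-- COL: the rank of the jets at `y 0` and the values at `y 1`, ..., `y s`. -/
def T_COL : Prop := ∀ (K Ω : Type) [Field K] [CharZero K] [Field Ω] [Algebra K Ω] (m' m : ℕ)
  (L : (Fin m' → ℤ) →+ (Fin m → ℤ)), Function.Injective L → ∀ (N : (Fin m → ℤ) → ℝ), IsNm N →
  ∀ (y : ℕ → (Fin m → ℤ) → Ω), (∀ c, IsPt (y c)) → ∀ (s t : ℕ), 1 ≤ t → ∀ ρ : ℝ, 0 ≤ ρ →
  (∀ c₁ c₂ : ℕ, c₁ < c₂ → c₂ ≤ s → ∃ f : (Fin m' → ℤ) →₀ K,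
    Spt (fun a => N (L a)) (ρ / (2 * (t + s))) f ∧ ev K (fun a => y c₁ (L a)) f = 0 ∧
    ev K (fun a => y c₂ (L a)) f ≠ 0) →
  (∀ c : ℕ, 1 ≤ c → c ≤ s →
    Module.finrank K (WW K (fun a => y 0 (L a)) (fun a => N (L a)) ρ) ≤
      Module.finrank K (WW K (fun a => y c (L a)) (fun a => N (L a)) (ρ / 2))) →
  ∃ (R d0 r0 : ℕ) (nn : Fin R → Fin m → ℤ), Function.Injective nn ∧ (∀ j, N (nn j) ≤ ρ) ∧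
    1 ≤ r0 ∧ d0 ≤ t ^ m * r0 ∧ d0 + s * r0 ≤ R ∧ Cols K t s d0 y nn

/-- SFT: the columns. -/
def T_SFT : Prop := ∀ (K Ω : Type) [Field K] [CharZero K] [Field Ω] [Algebra K Ω]
  (p : ℕ), p.Prime → MuP K p → ∀ (θ : Ω ≃+* Ω) (κ : K ≃+* K),
  (∀ x, θ (algebraMap K Ω x) = algebraMap K Ω (κ x)) → ∀ (f m s t : ℕ), 8 ≤ p ^ f → 1 ≤ t →
  ∀ (y : ℕ → (Fin m → ℤ) → Ω), IsPt (y 0) → (∀ c a, y (c + 1) a = θ (y c a ^ (p ^ f))) →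
  ∀ (N : (Fin m → ℤ) → ℝ), IsNm N → ∀ σ ρ : ℝ, 0 ≤ σ →
  16 * (t + s) * ((p : ℝ) ^ f) ^ (2 * m * s) * σ ≤ ρ →
  (∃ g : (Fin m → ℤ) →₀ K, g ≠ 0 ∧ Spt N σ g ∧ ev K (y 0) g = 0) →
  (∀ (c₁ c₂ : ℕ) (a : Fin m → ℤ), c₁ < c₂ → c₂ ≤ s → a ≠ 0 →
    aeval (y c₂ a) (minpoly K (y c₁ a)) ≠ 0) →
  ∃ (R d0 r0 : ℕ) (nn : Fin R → Fin m → ℤ), Function.Injective nn ∧ (∀ j, N (nn j) ≤ ρ) ∧
    1 ≤ r0 ∧ d0 ≤ t ^ m * r0 ∧ d0 + s * r0 ≤ R ∧ Cols K t s d0 y nn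

/-- ROW: choice of conjugate rows. -/
def T_ROW : Prop := ∀ (K Ω : Type) [Field K] [Field Ω] [Algebra K Ω] [IsGalois K Ω] (R d0 : ℕ)
  (I J : Type) (u : I → Fin R → Ω) (w : J → Fin R → Ω),
  (∀ x : Fin R → K, (∀ i, ∑ j, algebraMap K Ω (x j) * u i j = 0) →
    (∀ i, ∑ j, algebraMap K Ω (x j) * w i j = 0) → x = 0) →
  ∀ X : Submodule K (Fin R → K), (∀ x ∈ X, ∀ i, ∑ j, algebraMap K Ω (x j) * u i j = 0) →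
  R ≤ d0 + Module.finrank K X →
  ∃ (a ν : ℕ) (f : Fin a → (Ω ≃ₐ[K] Ω) × I) (g : Fin ν → (Ω ≃ₐ[K] Ω) × J), a + ν = R ∧ a ≤ d0 ∧
    LinearIndependent Ω (Sum.elim (fun (i : Fin a) (j : Fin R) => (f i).1 (u (f i).2 j))
      (fun (i : Fin ν) (j : Fin R) => (g i).1 (w (g i).2 j))) ∧
    ∀ (σ : Ω ≃ₐ[K] Ω) (i : I), (fun j => σ (u i j)) ∈
      Submodule.span Ω (Set.range fun (i : Fin a) (j : Fin R) => (f i).1 (u (f i).2 j))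

/-! ## B. Analysis -/

/-- GAU: a polynomial which vanishes on a finite set, at a point close to this set. -/
def T_GAU : Prop := ∀ (M : Type) [Field M] (v : AbsoluteValue M ℝ), IsNonarchimedean v →
  ∀ (U : Finset M) (τ : ℕ) (h : M[X]) (Δ : ℕ), (∏ u ∈ U, (X - C u)) ^ τ ∣ h →
  (∀ k, v (h.coeff k) ≤ 1) → h.natDegree ≤ Δ → ∀ w : M,
  v (h.eval w) ≤ (∏ u ∈ U, dch v w u) ^ τ * (max (v w) 1) ^ Δ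

/-- PDH: from powers to binomial coefficients. -/
def T_PDH : Prop := ∀ (M : Type) [Field M] [CharZero M] (m t R : ℕ) (nn : Fin R → Fin m → ℤ)
  (c d : Fin R → M), (∀ κ : Fin m → ℕ, ∑ l, κ l < t → ∑ j, c j * (jc M κ (nn j) * d j) = 0) →
  ∀ (n0 : Fin m → ℤ) (b : Fin R → Fin m → ℕ), (∀ j l, (b j l : ℤ) = nn j l + n0 l) →
  ∀ κ : Fin m → ℕ, ∑ l, κ l < t → ∑ j, c j * ((∏ l, ((b j l).choose (κ l) : M)) * d j) = 0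

/-- PAD: a combination of monomials whose jets vanish on a finite set, at a point close to this
set. -/
def T_PAD : Prop := ∀ (M : Type) [Field M] [CharZero M] (v : AbsoluteValue M ℝ),
  IsNonarchimedean v → ∀ (r t R : ℕ) (nn : Fin R → Fin (r + 1) → ℤ) (g g' : Fin r → M) (w : M)
  (U : Finset M) (ϖ : ℝ), 0 < ϖ → ϖ ≤ 1 → (∀ i, v (g i) = 1) → (∀ i, v (g' i) = 1) →
  (∀ i, v (g' i - g i) ≤ ϖ) → w ≠ 0 → (∀ u ∈ U, u ≠ 0) → ∏ u ∈ U, dch v w u ≤ ϖ →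
  ∀ c : Fin R → M, (∀ j, v (c j) ≤ 1) →
  (∀ u ∈ U, ∀ κ : Fin (r + 1) → ℕ, ∑ l, κ l < t →
    ∑ j, c j * (jc M κ (nn j) * pt g u (nn j)) = 0) →
  ∀ B : ℝ, 0 ≤ B → (∀ j, v w ^ (nn j 0) ≤ B) →
  v (∑ j, c j * pt g' w (nn j)) ≤ ϖ ^ t * B

/-- DTL: a determinant whose last rows are small on the kernel of the first rows. -/
def T_DTL : Prop := ∀ (M : Type) [Field M] (v : AbsoluteValue M ℝ), IsNonarchimedean v →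
  ∀ (a ν : ℕ) (D : Matrix (Fin a ⊕ Fin ν) (Fin a ⊕ Fin ν) M) (ϖ : ℝ) (b : Fin a ⊕ Fin ν → ℝ),
  0 ≤ ϖ → (∀ i j, v (D i j) ≤ b i) → (∀ i, 0 ≤ b i) →
  (∀ x : Fin a ⊕ Fin ν → M, (∀ j, v (x j) ≤ 1) → (∀ i : Fin a, ∑ j, x j * D (Sum.inl i) j = 0) →
    ∀ i : Fin ν, v (∑ j, x j * D (Sum.inr i) j) ≤ ϖ * b (Sum.inr i)) →
  v D.det ≤ ϖ ^ ν * ∏ i, b i

/-- DET: the determinant inequality. -/
def T_DET : Prop := ∀ (M : Type) [Field M] [NumberField M] (p : ℕ), p.Prime →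
  ∀ (a ν R : ℕ) (G : ℝ) (A : Fin a → Fin R → M) (B : Fin ν → Fin R → M), a + ν = R → 0 ≤ G →
  LinearIndependent M (Sum.elim A B) →
  (∀ v : FinitePlace M, v.1 (p : M) < 1 → ∀ x : Fin R → M, (∀ j, v.1 (x j) ≤ 1) →
    (∀ i, ∑ j, x j * A i j = 0) → ∀ (i : Fin ν) (b : ℝ), (∀ j, v.1 (B i j) ≤ b) →
    v.1 (∑ j, x j * B i j) ≤ v.1 (p : M) ^ G * b) →
  ν * G * Real.log p * Module.finrank ℚ M ≤ Module.finrank ℚ M * (R * Real.log R) +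
    ∑ i, logHeight (A i) + ∑ i, logHeight (B i)

/-- DPA: the determinant inequality for jets and values. -/
def T_DPA : Prop := ∀ (M : Type) [Field M] [NumberField M] (p : ℕ), p.Prime →
  ∀ (r t R a ν : ℕ) (G : ℝ), a + ν = R → 0 ≤ G → ∀ (nn : Fin R → Fin (r + 1) → ℤ)
  (γ0 : Fin r → M) (U : Finset M) (uA : Fin a → M) (κA : Fin a → Fin (r + 1) → ℕ)
  (wB : Fin ν → M) (γB : Fin ν → Fin r → M), (∀ u ∈ U, u ≠ 0) → (∀ i, wB i ≠ 0) →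
  LinearIndependent M (Sum.elim
    (fun (i : Fin a) (j : Fin R) => jc M (κA i) (nn j) * pt γ0 (uA i) (nn j))
    (fun (i : Fin ν) (j : Fin R) => pt (γB i) (wB i) (nn j))) →
  (∀ x : Fin R → M, (∀ i, ∑ j, x j * (jc M (κA i) (nn j) * pt γ0 (uA i) (nn j)) = 0) →
    ∀ u ∈ U, ∀ κ : Fin (r + 1) → ℕ, ∑ l, κ l < t →
      ∑ j, x j * (jc M κ (nn j) * pt γ0 u (nn j)) = 0) →
  (∀ v : FinitePlace M, v.1 (p : M) < 1 → (∀ l, v.1 (γ0 l) = 1) ∧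
    (∀ i l, v.1 (γB i l) = 1 ∧ v.1 (γB i l - γ0 l) ≤ v.1 (p : M) ^ G) ∧
    ∀ i, ∏ u ∈ U, dch v.1 (wB i) u ≤ v.1 (p : M) ^ G) →
  ν * (t * G) * Real.log p * Module.finrank ℚ M ≤ Module.finrank ℚ M * (R * Real.log R) +
    ∑ i, logHeight (fun j => jc M (κA i) (nn j) * pt γ0 (uA i) (nn j)) +
    ∑ i, logHeight (fun j => pt (γB i) (wB i) (nn j))

/-- HTS: heights of the rows. -/
def T_HTS : Prop := ∀ (M : Type) [Field M] [NumberField M] (r R q n : ℕ) (β g : M)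
  (γ : Fin r → M) (x : Fin r → ℤ) (nn : Fin R → Fin (r + 1) → ℤ) (A B : ℝ), β ≠ 0 → g ≠ 0 →
  (∀ i, γ i ≠ 0) → 0 < n → g ^ n = ∏ i, γ i ^ x i → 0 ≤ A → 0 ≤ B →
  (∀ j, |(nn j 0 : ℝ)| ≤ A) → (∀ j i, |(nn j i.succ : ℝ) - nn j 0 * (x i / n)| ≤ B) →
  logHeight (fun j => (pt γ β (nn j)) ^ q) ≤
    q * (2 * A * logHeight₁ (β * g) + 2 * B * ∑ i, logHeight₁ (γ i))

/-- JHT: heights of rows multiplied by integers. -/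
def T_JHT : Prop := ∀ (M : Type) [Field M] [NumberField M] (R : ℕ) (z : Fin R → ℤ)
  (y : Fin R → M) (B : ℝ), 1 ≤ B → (∀ j, |(z j : ℝ)| ≤ B) →
  logHeight (fun j => (z j : M) * y j) ≤ logHeight y + Module.finrank ℚ M * Real.log B

/-! ## C. The Frobenius substitution -/

/-- UNI: a prime at which finitely many numbers are units. -/
def T_UNI : Prop := ∀ (F : Type) [Field F] [NumberField F] (r : ℕ) (γ : Fin r → F),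
  (∀ i, γ i ≠ 0) → ∃ p : ℕ, p.Prime ∧ ∀ w : FinitePlace F, w.1 (p : F) < 1 → ∀ i, w.1 (γ i) = 1

/-- FRF: the Frobenius substitution of a cyclotomic extension which fixes the roots of unity of
order a power of `p`. -/
def T_FRF : Prop := ∀ (F E : Type) [Field F] [NumberField F] [Field E] [NumberField E]
  [Algebra F E] (p v N' : ℕ), p.Prime → ¬ p ∣ N' → ∀ ζ : E, IsPrimitiveRoot ζ (p ^ v * N') →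
  IntermediateField.adjoin F {ζ} = ⊤ → ∃ φ : E ≃ₐ[F] E, ∀ w : FinitePlace E, w.1 (p : E) < 1 →
  (∀ x : E, w.1 (φ x) = w.1 x) ∧
  ∀ x : E, w.1 x ≤ 1 → w.1 (φ x - x ^ (p ^ (Module.finrank ℚ F).factorial)) ≤
    w.1 (p : E) ^ (1 / ((Module.finrank ℚ F * p ^ v : ℕ) : ℝ))

/-- FRL: the same for the level fields and in terms of automorphisms of `Ω`. -/
def T_FRL : Prop := ∀ (F Ω : Type) [Field F] [NumberField F] [Field Ω] [CharZero Ω] [Algebra F Ω]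
  [IsAlgClosed Ω] [Algebra.IsAlgebraic F Ω] (p : ℕ), p.Prime → ∀ (r : ℕ) (γ : Fin r → F),
  (∀ i, γ i ≠ 0) → ∀ v N' : ℕ, ¬ p ∣ N' →
  ∃ Φ : Ω ≃ₐ[F] Ω, FroL F Ω (Lv F Ω γ (p ^ v * N') 1) p
    (3 * (Module.finrank ℚ F).factorial) (1 / ((Module.finrank ℚ F * p ^ v : ℕ) : ℝ)) Φ

/-- CLO: closeness of the points at the different levels. -/
def T_CLO : Prop := ∀ (F Ω : Type) [Field F] [NumberField F] [Field Ω] [CharZero Ω] [Algebra F Ω]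
  [IsAlgClosed Ω] [Algebra.IsAlgebraic F Ω] (E : IntermediateField F Ω),
  (∀ (τ : Ω ≃ₐ[F] Ω), ∀ z ∈ E, τ z ∈ E) → ∀ (p f : ℕ) (δ : ℝ), p.Prime → 0 < δ → δ ≤ 1 →
  ∀ Φ : Ω ≃ₐ[F] Ω, FroL F Ω E p f δ Φ → ∀ (M : IntermediateField F Ω) [NumberField M], E ≤ M →
  (∀ (τ : Ω ≃ₐ[F] Ω), ∀ z ∈ M, τ z ∈ M) → ∀ (e0 c k e' : ℕ), f * e0 = k + e' →
  1 ≤ (p : ℝ) ^ k * δ → ∀ w : FinitePlace M, w.1 (p : M) < 1 →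
  (∀ (h : E[X]) (s : Finset Ω), (∀ x ∈ s, x ∈ M) → h.map (algebraMap E Ω) = ∏ x ∈ s, (X - C x) →
    ∀ U : Finset M, (∀ u : M, u ∈ U ↔ ∃ y ∈ s, (u : Ω) = (Φ ^ e0).symm y) →
    ∀ x : M, (∃ y ∈ s, (x : Ω) = (Φ ^ (e0 + c)).symm y) →
    ∏ u ∈ U, dch w.1 (x ^ ((p ^ f) ^ (e0 + c))) (u ^ ((p ^ f) ^ e0)) ≤ w.1 (p : M) ^ (e' + 1)) ∧
  ∀ a : F, w.1 (algebraMap F M a) = 1 →
    w.1 ((algebraMap F M a) ^ ((p ^ f) ^ (e0 + c)) - (algebraMap F M a) ^ ((p ^ f) ^ e0)) ≤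
      w.1 (p : M) ^ (e' + 1)

/-- RWS: the rows. -/
def T_RWS : Prop := ∀ (F Ω : Type) [Field F] [NumberField F] [Field Ω] [CharZero Ω] [Algebra F Ω]
  [IsAlgClosed Ω] [Algebra.IsAlgebraic F Ω] (r : ℕ) (γ : Fin r → F) (E : IntermediateField F Ω),
  E ≤ KK F Ω → ∀ (Φ : Ω ≃ₐ[F] Ω) (Q e0 s t R d0 : ℕ) (nn : Fin R → Fin (r + 1) → ℤ) (β : Ω)
  (X : Finset Ω), (∀ σ : Ω ≃ₐ[F] Ω, (∀ z ∈ E, σ z = z) → σ β ∈ X) →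
  (∀ y ∈ X, ∃ σ : Ω ≃ₐ[F] Ω, (∀ z ∈ KK F Ω, σ z = z) ∧ σ β = y) →
  Cols (KK F Ω) t s d0 (yy F Ω Φ Q e0 γ β) nn →
  ∃ (a ν : ℕ) (uA : Fin a → Ω) (κA : Fin a → Fin (r + 1) → ℕ) (uB : Fin ν → Ω) (cB : Fin ν → ℕ),
    a + ν = R ∧ a ≤ d0 ∧ (∀ i, uA i ∈ X ∧ ∑ l, κA i l < t) ∧
    (∀ i, uB i ∈ X ∧ 1 ≤ cB i ∧ cB i ≤ s) ∧
    LinearIndependent Ω (Sum.elim
      (fun (i : Fin a) (j : Fin R) => jc Ω (κA i) (nn j) * yy F Ω Φ Q e0 γ (uA i) 0 (nn j))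
      (fun (i : Fin ν) (j : Fin R) => yy F Ω Φ Q e0 γ (uB i) (cB i) (nn j))) ∧
    ∀ x ∈ X, ∀ κ : Fin (r + 1) → ℕ, ∑ l, κ l < t →
      (fun j => jc Ω κ (nn j) * yy F Ω Φ Q e0 γ x 0 (nn j)) ∈ Submodule.span Ω (Set.range
        fun (i : Fin a) (j : Fin R) => jc Ω (κA i) (nn j) * yy F Ω Φ Q e0 γ (uA i) 0 (nn j))

/-- FLD: a finite normal extension. -/
def T_FLD : Prop := ∀ (F Ω : Type) [Field F] [NumberField F] [Field Ω] [CharZero Ω] [Algebra F Ω]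
  [IsAlgClosed Ω] [Algebra.IsAlgebraic F Ω] (E : IntermediateField F Ω), FiniteDimensional F E →
  ∀ s : Finset Ω, ∃ M : IntermediateField F Ω, FiniteDimensional F M ∧ E ≤ M ∧
    (∀ z ∈ s, z ∈ M) ∧ ∀ (τ : Ω ≃ₐ[F] Ω), ∀ z ∈ M, τ z ∈ M

/-- ANB: the determinant inequality for the points at the different levels. -/
def T_ANB : Prop := ∀ (F Ω : Type) [Field F] [NumberField F] [Field Ω] [CharZero Ω] [Algebra F Ω]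
  [IsAlgClosed Ω] [Algebra.IsAlgebraic F Ω] (p : ℕ), p.Prime → ∀ (r : ℕ) (γ : Fin r → F),
  (∀ i, γ i ≠ 0) → (∀ w : FinitePlace F, w.1 (p : F) < 1 → ∀ i, w.1 (γ i) = 1) →
  ∀ E : IntermediateField F Ω, FiniteDimensional F E → (∀ (τ : Ω ≃ₐ[F] Ω), ∀ z ∈ E, τ z ∈ E) →
  E ≤ KK F Ω → ∀ (f : ℕ) (δ : ℝ), 0 < δ → δ ≤ 1 → ∀ Φ : Ω ≃ₐ[F] Ω, FroL F Ω E p f δ Φ →
  ∀ β g : Ω, β ≠ 0 →
  ∀ X : Finset Ω, (∀ σ : Ω ≃ₐ[F] Ω, (∀ z ∈ E, σ z = z) → σ β ∈ X) →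
  (∀ y ∈ X, ∃ σ : Ω ≃ₐ[F] Ω, (∀ z ∈ KK F Ω, σ z = z) ∧ σ β = y) → Red F Ω E β →
  ∀ (s t e0 k e' : ℕ), f * e0 = k + e' → 1 ≤ (p : ℝ) ^ k * δ →
  ∀ (R d0 : ℕ) (nn : Fin R → Fin (r + 1) → ℤ),
  Cols (KK F Ω) t s d0 (yy F Ω Φ (p ^ f) e0 γ β) nn →
  ∃ (M : IntermediateField F Ω) (_ : NumberField M) (a ν : ℕ) (ψA : Fin a → Ω ≃ₐ[F] Ω)
    (κA : Fin a → Fin (r + 1) → ℕ) (ψB : Fin ν → Ω ≃ₐ[F] Ω) (cB : Fin ν → ℕ) (zA : Fin a → M)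
    (zB : Fin ν → M), g ∈ M ∧ (∀ (τ : Ω ≃ₐ[F] Ω), ∀ z ∈ M, τ z ∈ M) ∧ a + ν = R ∧ a ≤ d0 ∧
    (∀ i, (zA i : Ω) = ψA i β ∧ ∑ l, κA i l < t) ∧ (∀ i, (zB i : Ω) = ψB i β ∧ cB i ≤ s) ∧
    ν * (t * (e' + 1)) * Real.log p * Module.finrank ℚ M ≤
      Module.finrank ℚ M * (R * Real.log R) +
      ∑ i, logHeight (fun j => jc M (κA i) (nn j) *
        (pt (fun l => algebraMap F M (γ l)) (zA i) (nn j)) ^ ((p ^ f) ^ e0)) +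
      ∑ i, logHeight (fun j =>
        (pt (fun l => algebraMap F M (γ l)) (zB i) (nn j)) ^ ((p ^ f) ^ (e0 + cB i)))

/-- NRM: the norm of a translate. -/
def T_NRM : Prop := ∀ (r : ℕ) (lam H : ℝ) (ξ : Fin r → ℝ), 0 < lam → 1 ≤ H →
  (∀ i, 0 ≤ ξ i ∧ ξ i ≤ 1) → IsNm (nrm r lam H ξ) ∧ ∀ ρ : ℝ, 0 ≤ ρ →
  (∀ a, nrm r lam H ξ a ≤ ρ → |(a 0 : ℝ)| ≤ ρ / lam ∧
    (∀ i, |(a i.succ : ℝ) - a 0 * ξ i| ≤ ρ / H) ∧ ∀ l, |(a l : ℝ)| ≤ 1 + ρ + ρ / lam) ∧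
  ∀ (R : ℕ) (nn : Fin R → Fin (r + 1) → ℤ), Function.Injective nn →
    (∀ j, nrm r lam H ξ (nn j) ≤ ρ) → (R : ℝ) ≤ (2 * (1 + ρ + ρ / lam) + 1) ^ (r + 1)

/-- ANA: the analytic inequality. -/
def T_ANA : Prop := ∀ (F Ω : Type) [Field F] [NumberField F] [Field Ω] [CharZero Ω] [Algebra F Ω]
  [IsAlgClosed Ω] [Algebra.IsAlgebraic F Ω] (p : ℕ), p.Prime → ∀ (r : ℕ) (γ : Fin r → F),
  (∀ i, γ i ≠ 0) → (∀ w : FinitePlace F, w.1 (p : F) < 1 → ∀ i, w.1 (γ i) = 1) →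
  ∀ E : IntermediateField F Ω, FiniteDimensional F E → (∀ (τ : Ω ≃ₐ[F] Ω), ∀ z ∈ E, τ z ∈ E) →
  E ≤ KK F Ω → ∀ (f : ℕ) (δ : ℝ), 0 < δ → δ ≤ 1 → ∀ Φ : Ω ≃ₐ[F] Ω, FroL F Ω E p f δ Φ →
  ∀ β g : Ω, β ≠ 0 → g ≠ 0 → ∀ (n : ℕ) (x : Fin r → ℤ), 0 < n →
  g ^ n = ∏ i, (algebraMap F Ω (γ i)) ^ x i → (∀ i, 0 ≤ x i ∧ x i < n) →
  ∀ X : Finset Ω, (∀ σ : Ω ≃ₐ[F] Ω, (∀ z ∈ E, σ z = z) → σ β ∈ X) →
  (∀ y ∈ X, ∃ σ : Ω ≃ₐ[F] Ω, (∀ z ∈ KK F Ω, σ z = z) ∧ σ β = y) → Red F Ω E β →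
  0 < absLogHeight₁ (β * g) → ∀ (ρ : ℝ) (s t e0 k e' : ℕ), 0 ≤ ρ → f * e0 = k + e' →
  1 ≤ (p : ℝ) ^ k * δ → ∀ (R d0 : ℕ) (nn : Fin R → Fin (r + 1) → ℤ), Function.Injective nn →
  (∀ j, nrm r (absLogHeight₁ (β * g)) (Hg F Ω γ) (fun i => (x i : ℝ) / n) (nn j) ≤ ρ) →
  Cols (KK F Ω) t s d0 (yy F Ω Φ (p ^ f) e0 γ β) nn →
  ((R : ℝ) - d0) * t * (e' + 1) * Real.log p ≤
    R * Real.log R + 4 * R * ρ * ((p : ℝ) ^ f) ^ (e0 + s) +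
      d0 * t * Real.log (1 + ρ + ρ / absLogHeight₁ (β * g))

/-! ## D. The bottom -/

/-- REL: linear relations over a field. -/
def T_REL : Prop := ∀ (F Ω : Type) [Field F] [NumberField F] [Field Ω] [CharZero Ω] [Algebra F Ω]
  [IsAlgClosed Ω] [Algebra.IsAlgebraic F Ω] (K : IntermediateField F Ω) (d : ℕ) (β : Ω),
  Cj F Ω K d β → ∀ (r : ℕ) (γ : Fin r → F) (q : ℕ) (S : Finset (Fin (r + 1) → ℤ)), d < S.card →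
  ∃ f : (Fin (r + 1) → ℤ) →₀ K, f ≠ 0 ∧ (∀ a ∈ f.support, a ∈ S) ∧
    ev K (fun a => (pt (fun i => algebraMap F Ω (γ i)) β a) ^ q) f = 0

/-- COR: the core. -/
def T_COR : Prop := ∀ (F Ω : Type) [Field F] [NumberField F] [Field Ω] [CharZero Ω] [Algebra F Ω]
  [IsAlgClosed Ω] [Algebra.IsAlgebraic F Ω] (p : ℕ), p.Prime → ∀ (r : ℕ) (γ : Fin r → F),
  MInd F γ → (∀ w : FinitePlace F, w.1 (p : F) < 1 → ∀ i, w.1 (γ i) = 1) →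
  ∀ E : IntermediateField F Ω, FiniteDimensional F E → (∀ (τ : Ω ≃ₐ[F] Ω), ∀ z ∈ E, τ z ∈ E) →
  E ≤ KK F Ω → ∀ (f : ℕ) (δ : ℝ), 8 ≤ p ^ f → 0 < δ → δ ≤ 1 →
  ∀ Φ : Ω ≃ₐ[F] Ω, FroL F Ω E p f δ Φ →
  ∀ β g : Ω, β ≠ 0 → g ≠ 0 → ∀ (n : ℕ) (x : Fin r → ℤ), 0 < n →
  g ^ n = ∏ i, (algebraMap F Ω (γ i)) ^ x i → (∀ i, 0 ≤ x i ∧ x i < n) →
  ∀ X : Finset Ω, (∀ σ : Ω ≃ₐ[F] Ω, (∀ z ∈ E, σ z = z) → σ β ∈ X) →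
  (∀ y ∈ X, ∃ σ : Ω ≃ₐ[F] Ω, (∀ z ∈ KK F Ω, σ z = z) ∧ σ β = y) → Red F Ω E β →
  β * g ∉ Dv F Ω γ → ∀ (s t e0 k e' : ℕ) (σ ρ : ℝ), 1 ≤ t → f * e0 = k + e' →
  1 ≤ (p : ℝ) ^ k * δ → 0 ≤ σ →
  16 * (t + s) * ((p : ℝ) ^ f) ^ (2 * (r + 1) * s) * σ ≤ ρ →
  ∀ S : Finset (Fin (r + 1) → ℤ), (∀ a ∈ S,
    nrm r (absLogHeight₁ (β * g)) (Hg F Ω γ) (fun i => (x i : ℝ) / n) a ≤ σ) →
  X.card < S.card → ∃ R d0 r0 : ℕ, 1 ≤ r0 ∧ d0 ≤ t ^ (r + 1) * r0 ∧ d0 + s * r0 ≤ R ∧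
    (R : ℝ) ≤ (2 * (1 + ρ + ρ / absLogHeight₁ (β * g)) + 1) ^ (r + 1) ∧
    ((R : ℝ) - d0) * t * (e' + 1) * Real.log p ≤
      R * Real.log R + 4 * R * ρ * ((p : ℝ) ^ f) ^ (e0 + s) +
        d0 * t * Real.log (1 + ρ + ρ / absLogHeight₁ (β * g))

/-- CNT: lattice points in a thin neighbourhood of a line. -/
def T_CNT : Prop := ∀ (r : ℕ) (H : ℝ), 1 ≤ H → ∃ c : ℝ, 0 < c ∧ ∀ (lam σ : ℝ) (ξ : Fin r → ℝ),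
  0 < lam → 0 < σ → σ ≤ 1 → ∃ S : Finset (Fin (r + 1) → ℤ), (∀ a ∈ S, nrm r lam H ξ a ≤ σ) ∧
    c * σ ^ (r + 1) / lam ≤ S.card

/-- NU3: choice of the parameters. -/
def T_NU3 : Prop := ∀ (p f n0 r : ℕ) (ε : ℝ), 2 ≤ p → 1 ≤ f → 1 ≤ n0 → 0 < ε → ∃ ε' : ℝ,
  0 < ε' ∧ ε' ≤ ε ∧ ∀ c₁ c₂ c₃ : ℝ, 0 < c₁ → 0 < c₂ → 0 < c₃ → ∃ c : ℝ, 0 < c ∧ c ≤ c₂ ∧
  ∀ (D v : ℕ) (lam : ℝ), 0 < D → 0 < lam → c₁ ≤ lam * (D : ℝ) ^ (2 * (r + 1)) →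
  c₂ * (p : ℝ) ^ v ≤ (D : ℝ) ^ ε' → lam * (D : ℝ) ^ (1 + ε) < c →
  ∃ (s t e0 k e' : ℕ) (σ ρ : ℝ), 1 ≤ t ∧ f * e0 = k + e' ∧
    1 ≤ (p : ℝ) ^ k * (1 / ((n0 * p ^ v : ℕ) : ℝ)) ∧ 0 < σ ∧ σ ≤ 1 ∧
    16 * (t + s) * ((p : ℝ) ^ f) ^ (2 * (r + 1) * s) * σ ≤ ρ ∧
    (D : ℝ) < c₃ * σ ^ (r + 1) / lam ∧ ∀ R d0 r0 : ℕ, 1 ≤ r0 → d0 ≤ t ^ (r + 1) * r0 →
      d0 + s * r0 ≤ R → (R : ℝ) ≤ (2 * (1 + ρ + ρ / lam) + 1) ^ (r + 1) →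
      R * Real.log R + 4 * R * ρ * ((p : ℝ) ^ f) ^ (e0 + s) +
        d0 * t * Real.log (1 + ρ + ρ / lam) < ((R : ℝ) - d0) * t * (e' + 1) * Real.log p

/-- DPC: the cyclotomic descent at one prime. -/
def T_DPC : Prop := ∀ (F Ω : Type) [Field F] [NumberField F] [Field Ω] [CharZero Ω] [Algebra F Ω]
  [IsAlgClosed Ω] [Algebra.IsAlgebraic F Ω] (p : ℕ), p.Prime → ∀ (r : ℕ) (γ : Fin r → F),
  (∀ i, γ i ≠ 0) → ∀ ε : ℝ, 0 < ε → ∃ c : ℝ, 0 < c ∧ ∀ d : ℕ, 0 < d → ∃ k : ℕ,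
  c * (p : ℝ) ^ k ≤ (d : ℝ) ^ ε ∧ ∀ n N' : ℕ, ¬ p ∣ N' → ∀ α : Ω,
  RepD F Ω γ (p ^ n * N') 1 d α → absLogHeight₁ α < c / (d : ℝ) ^ (1 + ε) →
  RepD F Ω γ (p ^ k * N') 1 d α

/-- EXM: if the number of conjugates is minimal among all the levels, the conjugates over the level
field are conjugates over the field of all roots of unity. -/
def T_EXM : Prop := ∀ (F Ω : Type) [Field F] [NumberField F] [Field Ω] [CharZero Ω] [Algebra F Ω]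
  [IsAlgClosed Ω] [Algebra.IsAlgebraic F Ω] (r : ℕ) (γ : Fin r → F), (∀ i, γ i ≠ 0) →
  ∀ (N D : ℕ) (β g : Ω), 0 < N → β ≠ 0 → Cj F Ω (Lv F Ω γ N 1) D β → Red F Ω (Lv F Ω γ N 1) β →
  g ∈ Dv F Ω γ → (∀ N₁ d : ℕ, 0 < N₁ → RepD F Ω γ N₁ 1 d (β * g) → D ≤ d) →
  Lv F Ω γ N 1 ≤ KK F Ω ∧ ∃ X : Finset Ω, X.card ≤ D ∧
    (∀ σ : Ω ≃ₐ[F] Ω, (∀ z ∈ Lv F Ω γ N 1, σ z = z) → σ β ∈ X) ∧
    ∀ y ∈ X, ∃ σ : Ω ≃ₐ[F] Ω, (∀ z ∈ KK F Ω, σ z = z) ∧ σ β = y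

/-- NOR: normalisation of the element of the division group. -/
def T_NOR : Prop := ∀ (F Ω : Type) [Field F] [NumberField F] [Field Ω] [CharZero Ω] [Algebra F Ω]
  [IsAlgClosed Ω] [Algebra.IsAlgebraic F Ω] (r : ℕ) (γ : Fin r → F), (∀ i, γ i ≠ 0) →
  ∀ (E : IntermediateField F Ω) (d : ℕ) (β g : Ω), β ≠ 0 → Cj F Ω E d β → Red F Ω E β →
  g ∈ Dv F Ω γ → ∃ (β' g' : Ω) (n : ℕ) (x : Fin r → ℤ), β' ≠ 0 ∧ g' ≠ 0 ∧ β' * g' = β * g ∧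
    Cj F Ω E d β' ∧ Red F Ω E β' ∧ g' ∈ Dv F Ω γ ∧ 0 < n ∧
    g' ^ n = ∏ i, (algebraMap F Ω (γ i)) ^ x i ∧ ∀ i, 0 ≤ x i ∧ x i < n

/-- BOT: the theorem over the cyclotomic fields. -/
def T_BOT : Prop := ∀ (F Ω : Type) [Field F] [NumberField F] [Field Ω] [CharZero Ω] [Algebra F Ω]
  [IsAlgClosed Ω] [Algebra.IsAlgebraic F Ω] (r : ℕ) (γ : Fin r → F), MInd F γ →
  ∀ ε : ℝ, 0 < ε → ∃ c : ℝ, 0 < c ∧ ∀ N d : ℕ, 0 < N → 0 < d → ∀ α : Ω,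
  RepD F Ω γ N 1 d α → α ∉ Dv F Ω γ → c ≤ absLogHeight₁ α * (d : ℝ) ^ (1 + ε)

/-- CDF: the number of conjugates over a cyclotomic field. -/
def T_CDF : Prop := ∀ (F Ω : Type) [Field F] [NumberField F] [Field Ω] [CharZero Ω] [Algebra F Ω]
  [IsAlgClosed Ω] [Algebra.IsAlgebraic F Ω] (r : ℕ) (γ : Fin r → F), (∀ i, γ i ≠ 0) →
  ∀ N K d : ℕ, 0 < N → K ∣ N → ∀ β : Ω, Cj F Ω (Lv F Ω γ N K) d β →
  Cj F Ω (Lv F Ω γ N 1) (K ^ r * d) β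

/-- FINS: the last step. -/
def T_FINS : Prop := ∀ (F Ω : Type) [Field F] [NumberField F] [Field Ω] [CharZero Ω] [Algebra F Ω]
  [IsAlgClosed Ω] [Algebra.IsAlgebraic F Ω] (r : ℕ) (γ : Fin r → F), MInd F γ →
  ∀ ε : ℝ, 0 < ε → ∃ c : ℝ, 0 < c ∧ ∀ N K d : ℕ, 0 < N → K ∣ N → 0 < d → ∀ α : Ω,
  RepD F Ω γ N K d α → α ∉ Dv F Ω γ → c ≤ absLogHeight₁ α * ((K : ℝ) ^ r * d) ^ (1 + ε)

/-- MBS: the theorem for independent generators. -/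
def T_MBS : Prop := ∀ (F Ω : Type) [Field F] [NumberField F] [Field Ω] [CharZero Ω] [Algebra F Ω]
  [IsAlgClosed Ω] [Algebra.IsAlgebraic F Ω] (r : ℕ) (γ : Fin r → F), MInd F γ →
  ∀ S : Finset ℕ, (∀ p ∈ S, p.Prime) → ∀ ε : ℝ, 0 < ε → ∃ c : ℝ, 0 < c ∧
  ∀ N K d : ℕ, 0 < N → K ∣ N → (∀ p : ℕ, p.Prime → p ∣ K → p ∈ S) → 0 < d → ∀ β g : Ω, β ≠ 0 →
  Cj F Ω (Lv F Ω γ N K) d β → g ∈ Dv F Ω γ → β * g ∉ Dv F Ω γ →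
  c ≤ absLogHeight₁ (β * g) * (d : ℝ) ^ (1 + ε)

/-- MAIS: the result. -/
def T_MAIS : Prop := ∀ (Γ : Subgroup (AlgebraicClosure ℚ)ˣ), Γ.FG → ∀ (S : Finset ℕ) (ε : ℝ),
  0 < ε → ∃ c : ℝ, 0 < c ∧ ∀ L : IntermediateField ℚ (AlgebraicClosure ℚ),
  L = IntermediateField.adjoin ℚ
      ({z : AlgebraicClosure ℚ | ∃ n : ℕ, 0 < n ∧ z ^ n = 1} ∪
        {z | ∃ n : ℕ, 0 < n ∧ (∀ p : ℕ, p.Prime → p ∣ n → p ∈ S) ∧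
          ∃ g ∈ Γ, z ^ n = (g : AlgebraicClosure ℚ)}) →
  ∀ β γ : AlgebraicClosure ℚ, (∃ n : ℕ, 0 < n ∧ ∃ g ∈ Γ, γ ^ n = (g : AlgebraicClosure ℚ)) →
  β * γ ≠ 0 → (¬ ∃ n : ℕ, 0 < n ∧ ∃ g ∈ Γ, (β * γ) ^ n = (g : AlgebraicClosure ℚ)) →
  c ≤ absLogHeight₁ (β * γ) *
    (Module.finrank L (IntermediateField.adjoin L {β}) : ℝ) ^ (1 + ε)

end Pool.Agent.H29.SX
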