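import Pool.Agent.H29.RQ.All
import Pool.Agent.H29.SX.Targets
import Pool.Agent.H10.SX.BOT
import Pool.Agent.H12.SX.RWS
import Pool.Agent.H13.SX.EXM
import Pool.Agent.H14.SX.FIL
import Pool.Agent.H14.SX.SFT
import Pool.Agent.H17.SX.ROW
import Pool.Agent.H2.SX.CHO
import Pool.Agent.H29.SX.ANB
import Pool.Agent.H29.SX.JHT
import Pool.Agent.H4.SX.COR
import Pool.Agent.H40.SX.CDF
import Pool.Agent.H42.SX.GR2
import Pool.Agent.H42.SX.GRO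
import Pool.Agent.H48.SX.CNT
import Pool.Agent.H48.SX.FLD
import Pool.Agent.H48.SX.GAU
import Pool.Agent.H48.SX.NU3
import Pool.Agent.H5.SX.UNI
import Pool.Agent.H63.SX.ANA
import Pool.Agent.H63.SX.DPC
import Pool.Agent.H63.SX.MAIS
import Pool.Agent.H63.SX.MBS
import Pool.Agent.H69.SX.COL
import Pool.Agent.H69.SX.FRF
import Pool.Agent.H70.SX.CLO
import Pool.Agent.H71.SX.NRM
import Pool.Agent.H71.SX.PDH
import Pool.Agent.H71.SX.REL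
import Pool.Agent.H79.SX.FRL
import Pool.Agent.H79.SX.MUJ
import Pool.Agent.H84.SX.LIF
import Pool.Agent.H84.SX.NIN
import Pool.Agent.H84.SX.TWI
import Pool.Agent.H88.SX.HTS
import Pool.Agent.H88.SX.NOR
import Pool.Agent.H90.SX.DET
import Pool.Agent.H94.SX.DPA
import Pool.Agent.H94.SX.GR1
import Pool.Agent.H96.SX.DTL
import Pool.Agent.H96.SX.PAD

set_option autoImplicit false

/-!
# MP_c65535_nt, the sharp exponent: assembly
-/

namespace Pool.Agent.H29.SX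

open Pool.Agent.H24.RD Pool.Agent.H23.RDD Pool.Agent.H29.RQ

theorem aMUJ : T_MUJ := Pool.Agent.H79.SX.pf_MUJ
theorem aCHO : T_CHO := Pool.Agent.H2.SX.pf_CHO
theorem aGR1 : T_GR1 := Pool.Agent.H94.SX.pf_GR1
theorem aGR2 : T_GR2 := Pool.Agent.H42.SX.pf_GR2 aMUJ
theorem aGRO : T_GRO := Pool.Agent.H42.SX.pf_GRO aGR1 aGR2
theorem aLIF : T_LIF := Pool.Agent.H84.SX.pf_LIF
theorem aTWI : T_TWI := Pool.Agent.H84.SX.pf_TWI
theorem aNIN : T_NIN := Pool.Agent.H84.SX.pf_NIN aGRO aTWI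
theorem aFIL : T_FIL := Pool.Agent.H14.SX.pf_FIL
theorem aCOL : T_COL := Pool.Agent.H69.SX.pf_COL aMUJ aFIL
theorem aSFT : T_SFT := Pool.Agent.H14.SX.pf_SFT aCHO aGRO aLIF aTWI aNIN aCOL
theorem aROW : T_ROW := Pool.Agent.H17.SX.pf_ROW
theorem aGAU : T_GAU := Pool.Agent.H48.SX.pf_GAU
theorem aPDH : T_PDH := Pool.Agent.H71.SX.pf_PDH
theorem aPAD : T_PAD := Pool.Agent.H96.SX.pf_PAD aGAU aPDH
theorem aDTL : T_DTL := Pool.Agent.H96.SX.pf_DTL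
theorem aDET : T_DET := Pool.Agent.H90.SX.pf_DET aPFX aDTL
theorem aDPA : T_DPA := Pool.Agent.H94.SX.pf_DPA aPAD aDET
theorem aHTS : T_HTS := Pool.Agent.H88.SX.pf_HTS
theorem aJHT : T_JHT := pf_JHT
theorem aUNI : T_UNI := Pool.Agent.H5.SX.pf_UNI
theorem aFRF : T_FRF := Pool.Agent.H69.SX.pf_FRF aVB
theorem aFRL : T_FRL := Pool.Agent.H79.SX.pf_FRL aRS aLVB aFRF
theorem aCLO : T_CLO := Pool.Agent.H70.SX.pf_CLO aPRF aPOWQ
theorem aRWS : T_RWS := Pool.Agent.H12.SX.pf_RWS aROW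
theorem aFLD : T_FLD := Pool.Agent.H48.SX.pf_FLD
theorem aANB : T_ANB := pf_ANB aFT aDPA aCLO aRWS aFLD aRS
theorem aNRM : T_NRM := Pool.Agent.H71.SX.pf_NRM
theorem aREL : T_REL := Pool.Agent.H71.SX.pf_REL
theorem aCNT : T_CNT := Pool.Agent.H48.SX.pf_CNT
theorem aNU3 : T_NU3 := Pool.Agent.H48.SX.pf_NU3
theorem aDPC : T_DPC := Pool.Agent.H63.SX.pf_DPC aMON aSTCQ aNUM
theorem aEXM : T_EXM := Pool.Agent.H13.SX.pf_EXM aLVB aFT
theorem aNOR : T_NOR := Pool.Agent.H88.SX.pf_NOR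
theorem aCDF : T_CDF := Pool.Agent.H40.SX.pf_CDF aLVB
theorem aANA : T_ANA := Pool.Agent.H63.SX.pf_ANA aHA aHB aHTS aJHT aNRM aANB
theorem aCOR : T_COR := Pool.Agent.H4.SX.pf_COR aHB aREL aSFT aNRM aANA
theorem aBOT : T_BOT := Pool.Agent.H10.SX.pf_BOT aLVB aHB aFINQ aUNI aFRL aCOR aCNT aNU3 aDPC aEXM aNOR
theorem aFINS : T_FINS := Pool.Agent.H48.SX.pf_FINS aHB aREDQ aBOT aCDF
theorem aMBS : T_MBS := Pool.Agent.H63.SX.pf_MBS aHB aREDQ aDSQ aFINS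
theorem aMAIS : T_MAIS := Pool.Agent.H63.SX.pf_MAIS aHB aLVB aMBS aBAS aCFS

end Pool.Agent.H29.SX
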