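import Pool.Agent.H29.RQ.Targets

set_option autoImplicit false

/-!
# MP_c65535_nt, the sharp exponent: definitions

Points of tori, Laurent polynomials (finitely supported functions), norms with finite balls,
characters which stabilise the ideal of a point, jets, and the Frobenius condition.
-/

namespace Pool.Agent.H29.SX

open NumberField Height Finset Polynomial Pool.Agent.H24.RD Pool.Agent.H23.RDD Pool.Agent.H29.RQ

/-- A point of a torus: a multiplicative function on an additive group. -/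
structure IsPt {A R : Type} [AddCommGroup A] [CommRing R] (y : A → R) : Prop where
  zero : y 0 = 1
  add : ∀ a b, y (a + b) = y a * y b

/-- A norm with finite balls. -/
structure IsNm {A : Type} [AddCommGroup A] (N : A → ℝ) : Prop where
  neg : ∀ a, N (-a) = N a
  add : ∀ a b, N (a + b) ≤ N a + N b
  nsm : ∀ (q : ℕ) (a : A), N (q • a) = q * N a
  fin : ∀ ρ : ℝ, {a | N a ≤ ρ}.Finite

/-- The value of a Laurent polynomial at a point. -/
noncomputable def ev (K : Type) {A R : Type} [Field K] [CommRing R] [Algebra K R] (y : A → R)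
    (f : A →₀ K) : R :=
  f.sum fun a c => algebraMap K R c * y a

/-- The support is in a ball. -/
def Spt {A K : Type} [Field K] (N : A → ℝ) (ρ : ℝ) (f : A →₀ K) : Prop :=
  ∀ a ∈ f.support, N a ≤ ρ

/-- The span of the values of the monomials in a ball. -/
noncomputable def WW (K : Type) {A Ω : Type} [Field K] [Field Ω] [Algebra K Ω] (y : A → Ω)
    (N : A → ℝ) (ρ : ℝ) : Submodule K Ω :=
  Submodule.span K (y '' {a | N a ≤ ρ})

/-- Only the trivial character of `p`-power order maps the relations of the point `y` in the ball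
of radius `σ` to relations. -/
def StabT (K : Type) {A Ω : Type} [AddCommGroup A] [Field K] [Field Ω] [Algebra K Ω] (p : ℕ)
    (y : A → Ω) (N : A → ℝ) (σ : ℝ) : Prop :=
  ∀ χ : A → K, IsPt χ → (∀ a, ∃ j : ℕ, χ a ^ (p ^ j) = 1) →
    (∀ f : A →₀ K, Spt N σ f → ev K y f = 0 →
      ev K (fun a => algebraMap K Ω (χ a) * y a) f = 0) → ∀ a, χ a = 1

/-- The field contains the roots of unity of order a power of `p`. -/
def MuP (K : Type) [Field K] (p : ℕ) : Prop := ∀ k : ℕ, ∃ ζ : K, IsPrimitiveRoot ζ (p ^ k)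

/-- The coefficients of the jets. -/
def jc (R : Type) [CommRing R] {m : ℕ} (κ : Fin m → ℕ) (a : Fin m → ℤ) : R :=
  ∏ l, ((a l : ℤ) : R) ^ (κ l)

/-- The vectors of coefficients whose jets of order less than `t` at `y` vanish. -/
def JK (K : Type) {Ω : Type} [Field K] [Field Ω] [Algebra K Ω] {m R : ℕ} (t : ℕ)
    (y : (Fin m → ℤ) → Ω) (nn : Fin R → Fin m → ℤ) : Submodule K (Fin R → K) where
  carrier := {x | ∀ κ : Fin m → ℕ, ∑ l, κ l < t →
    ∑ j, algebraMap K Ω (x j) * (jc Ω κ (nn j) * y (nn j)) = 0}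
  add_mem' := by
    intro x x' hx hx' κ hκ
    simp only [Set.mem_ofPred_eq] at hx hx'
    calc ∑ j, algebraMap K Ω ((x + x') j) * (jc Ω κ (nn j) * y (nn j))
        = ∑ j, algebraMap K Ω (x j) * (jc Ω κ (nn j) * y (nn j)) +
          ∑ j, algebraMap K Ω (x' j) * (jc Ω κ (nn j) * y (nn j)) := by
          rw [← Finset.sum_add_distrib]
          refine Finset.sum_congr rfl fun j _ => ?_
          rw [Pi.add_apply, map_add, add_mul]
      _ = 0 := by rw [hx κ hκ, hx' κ hκ, add_zero]
  zero_mem' := by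
    intro κ _
    simp
  smul_mem' := by
    intro c x hx κ hκ
    simp only [Set.mem_ofPred_eq] at hx
    calc ∑ j, algebraMap K Ω ((c • x) j) * (jc Ω κ (nn j) * y (nn j))
        = algebraMap K Ω c * ∑ j, algebraMap K Ω (x j) * (jc Ω κ (nn j) * y (nn j)) := by
          rw [Finset.mul_sum]
          refine Finset.sum_congr rfl fun j _ => ?_
          rw [Pi.smul_apply, smul_eq_mul, map_mul, mul_assoc]
      _ = 0 := by rw [hx κ hκ, mul_zero]

/-- A system of columns: the jets of order less than `t` at `y 0` and the values at `y 1`, ...,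
`y s` are injective on the combinations of the monomials `nn j`, and the jets have rank at most
`d0`. -/
structure Cols (K : Type) {Ω : Type} [Field K] [Field Ω] [Algebra K Ω] {m R : ℕ} (t s d0 : ℕ)
    (y : ℕ → (Fin m → ℤ) → Ω) (nn : Fin R → Fin m → ℤ) : Prop where
  inj : ∀ x ∈ JK K t (y 0) nn, (∀ c : ℕ, 1 ≤ c → c ≤ s →
    ∑ j, algebraMap K Ω (x j) * y c (nn j) = 0) → x = 0
  dim : R ≤ d0 + Module.finrank K (JK K t (y 0) nn)

/-- The point with coordinates `β`, `γ 0`, `γ 1`, ... -/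
noncomputable def pt {M : Type} [Field M] {r : ℕ} (γ : Fin r → M) (β : M)
    (a : Fin (r + 1) → ℤ) : M :=
  β ^ (a 0) * ∏ i, γ i ^ (a i.succ)

/-- The points at the different levels. -/
noncomputable def yy (F Ω : Type) [Field F] [Field Ω] [Algebra F Ω] (Φ : Ω ≃ₐ[F] Ω) (Q e0 : ℕ)
    {r : ℕ} (γ : Fin r → F) (β : Ω) (c : ℕ) (a : Fin (r + 1) → ℤ) : Ω :=
  ((Φ ^ (e0 + c)).symm (pt (fun i => algebraMap F Ω (γ i)) β a)) ^ (Q ^ (e0 + c))

/-- The norm of a translate. -/
noncomputable def nrm (r : ℕ) (lam H : ℝ) (ξ : Fin r → ℝ) (a : Fin (r + 1) → ℤ) : ℝ :=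
  |(a 0 : ℝ)| * lam + H * ∑ i, |(a i.succ : ℝ) - a 0 * ξ i|

/-- The field generated by the roots of unity. -/
noncomputable def KK (F Ω : Type) [Field F] [Field Ω] [Algebra F Ω] : IntermediateField F Ω :=
  IntermediateField.adjoin F {z : Ω | ∃ n : ℕ, 0 < n ∧ z ^ n = 1}

/-- `Φ` acts on `E` like the `p ^ f`-th power at all the places above `p`. -/
def FroL (F Ω : Type) [Field F] [Field Ω] [Algebra F Ω] (E : IntermediateField F Ω) (p f : ℕ)
    (δ : ℝ) (Φ : Ω ≃ₐ[F] Ω) : Prop :=
  ∀ (M : IntermediateField F Ω) [NumberField M], E ≤ M → ∀ w : FinitePlace M, w.1 (p : M) < 1 →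
    ∀ (c : ℕ) (x x' : M), (x : Ω) ∈ E → (x' : Ω) = (Φ ^ c) (x : Ω) →
      w.1 x' = w.1 x ∧ (w.1 x ≤ 1 → w.1 (x' - x ^ ((p ^ f) ^ c)) ≤ w.1 (p : M) ^ δ)

/-- One plus the sum of the heights of the `γ i`. -/
noncomputable def Hg (F Ω : Type) [Field F] [Field Ω] [CharZero Ω] [Algebra F Ω] {r : ℕ}
    (γ : Fin r → F) : ℝ :=
  1 + ∑ i, absLogHeight₁ (algebraMap F Ω (γ i))

end Pool.Agent.H29.SX
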